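import Pool.Agent.Lib.MP_b5021c_nt.IfaceEV
import Pool.Agent.Lib.MP_b5021c_nt.IfaceF
import Pool.Agent.Lib.MP_b5021c_nt.IfaceB

/-!
# Board b5, stage 3, chapter EV: a ray with at most one bad load (EvoS)
-/

set_option autoImplicit false

namespace Pool.Agent.B5.H70

open scoped LaurentPolynomial
open Pool.Agent.B5

theorem evo (hFl : Fl2S) (hE2 : E2S) (hEv : EvRS) : EvoS := by
  classical
  intro O _ _ _ _ P L _ _ _ _ _ phi D hD h2
  let Bd : L → (RO O)ˣ → Prop := fun S e => ∃ (i0 : P) (h : co phi i0 S = 1),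
    Module.finrank ℤ L ≠ rk (supp (cl (co phi i0) S h e D)) + 1
  let eta : L → (RO O)ˣ := fun S => if hx : ∃ e, Bd S e then Classical.choose hx else 1
  have heta : ∀ S, (∃ e, Bd S e) → Bd S (eta S) := by
    intro S hx
    have : eta S = Classical.choose hx := dif_pos hx
    rw [this]
    exact Classical.choose_spec hx
  obtain ⟨_, _, _, _, _, hR⟩ := hE2 O P L phi D hD h2
  have hap : ∀ S, Ray D S → D.coeff 0 + (eta S : RO O) * D.coeff S ≠ 0 := by
    intro S hS h0
    obtain ⟨z, hz⟩ := (hR S hS).2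
    apply hz
    have h1 : evR z (D.coeff 0) + evR z (eta S : RO O) * evR z (D.coeff S) = 0 := by
      rw [← map_mul, ← map_add, h0, map_zero]
    have h3 : evR z (D.coeff 0) = -(evR z (eta S : RO O) * evR z (D.coeff S)) := by
      linear_combination h1
    have h4 : ‖evR z (eta S : RO O)‖ = 1 := (hEv O).2.1 z _ (eta S).isUnit
    rw [h3, norm_neg, norm_mul, h4, one_mul]
  obtain ⟨S, g, hS, hg, _, _, hU⟩ := hFl O P L phi D eta hD h2 hap
  refine ⟨S, hS, ?_⟩
  intro i0 h e e' hne
  by_cases hg0 : g = 0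
  · left
    by_contra hcon
    obtain ⟨i1, h1, hb⟩ := heta S ⟨e, i0, h, hcon⟩
    apply hb
    have := hg i1 h1
    omega
  · have hg1 : 1 ≤ g := by omega
    by_cases he : e = eta S
    · right
      exact hU hg1 e' (fun h' => hne (he.trans h'.symm)) i0 h
    · left
      exact hU hg1 e he i0 h

end Pool.Agent.B5.H70
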